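import Pool.Agent.L0h99.SO.Fin

/-!
# From Poincaré's inequality and one large variance to the inequality of Kannan, Lovász and Simonovits
(helper31, after helper99 and the starting library)
-/

set_option autoImplicit false

namespace Pool.Agent.L0h31.GT

open MeasureTheory Set Filter Topology
open scoped ENNReal InnerProductSpace
open Pool.Agent.W695.KH (Eu EV VV Sm)

section

variable {κ : Type} [Fintype κ]

/-- the uniform probability measure on `K` -/
noncomputable def un (K : Set (Eu κ)) : Measure (Eu κ) :=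
  (volume K)⁻¹ • volume.restrict K

theorem vpos {K : Set (Eu κ)} (hi : (interior K).Nonempty) : 0 < volume K :=
  lt_of_lt_of_le (isOpen_interior.measure_pos volume hi) (measure_mono interior_subset)

theorem un_prob {K : Set (Eu κ)} (hc : IsCompact K) (hv : 0 < volume K) :
    IsProbabilityMeasure (un K) := by
  refine ⟨?_⟩
  unfold un
  rw [Measure.smul_apply, Measure.restrict_apply_univ, smul_eq_mul]
  exact ENNReal.inv_mul_cancel hv.ne' hc.measure_lt_top.ne

theorem un_int (K : Set (Eu κ)) (v : Eu κ → ℝ) : ∫ x, v x ∂(un K) = EV K v := by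
  unfold un EV
  rw [integral_smul_measure, ENNReal.toReal_inv, smul_eq_mul, inv_mul_eq_div]

theorem un_integrable {K : Set (Eu κ)} (hc : IsCompact K) (hv : 0 < volume K)
    (v : Eu κ → ℝ) (h : Continuous v) : Integrable v (un K) := by
  unfold un
  exact (h.continuousOn.integrableOn_compact hc).smul_measure (ENNReal.inv_ne_top.2 hv.ne')

theorem var_eq {K : Set (Eu κ)} (hc : IsCompact K) (hv : 0 < volume K)
    (v : Eu κ → ℝ) (h : Continuous v) : ProbabilityTheory.variance v (un K) = VV K v := by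
  have := un_prob hc hv
  have hL2 : MemLp v 2 (un K) := by
    rw [memLp_two_iff_integrable_sq h.aestronglyMeasurable]
    exact un_integrable hc hv _ (h.pow 2)
  rw [ProbabilityTheory.variance_eq_sub hL2]
  unfold VV
  rw [← un_int, ← un_int]
  rfl

/-- **Cheeger's inequality** from Poincaré's -/
theorem sets (D : Set (Eu κ)) (hc : IsCompact D) (hco : Convex ℝ D) (hi : (interior D).Nonempty)
    (C : ℝ) (hC : 0 < C)
    (hP : ∀ f : Eu κ → ℝ, ContDiff ℝ 1 f → VV D f ≤ C * EV D fun x => ‖fderiv ℝ f x‖ ^ 2)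
    (S : Set (Eu κ)) (hS : MeasurableSet S) :
    ENNReal.ofReal (1 / (8 * Real.sqrt C)) * min (un D S) (1 - un D S) ≤
      liminf (fun ε : ℝ =>
        (un D (Metric.thickening ε S) - un D S) / ENNReal.ofReal ε) (𝓝[>] 0) := by
  have hv := vpos hi
  have hprob := un_prob hc hv
  have hs : 0 < Real.sqrt C := Real.sqrt_pos.2 hC
  have key : un D S * (1 - un D S) ≤ ENNReal.ofReal (4 * Real.sqrt C) *
      liminf (fun ε : ℝ => (un D (Metric.thickening ε S) - un D S) / ENNReal.ofReal ε)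
        (𝓝[>] 0) := by
    refine Pool.Agent.W695.KH.mink κ D hc hco hv (4 * Real.sqrt C) (by positivity) ?_ (un D) rfl S hS
    intro f L M hf hb
    exact Pool.Agent.R972.OP.bodl_all κ D hc hco hv C hC hP f L M hf hb
  obtain ⟨I, hI⟩ : ∃ I : ℝ≥0∞, I = liminf (fun ε : ℝ =>
    (un D (Metric.thickening ε S) - un D S) / ENNReal.ofReal ε) (𝓝[>] 0) := ⟨_, rfl⟩
  rw [← hI] at key ⊢
  obtain ⟨a, ha⟩ : ∃ a : ℝ≥0∞, a = un D S := ⟨_, rfl⟩
  rw [← ha] at key ⊢
  have ha1 : a ≤ 1 := by rw [ha]; exact prob_le_one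
  have hadd : a + (1 - a) = 1 := add_tsub_cancel_of_le ha1
  have hmin : min a (1 - a) ≤ 2 * (a * (1 - a)) := by
    rcases le_total a (1 - a) with h1 | h1
    · have h2 : 1 ≤ 2 * (1 - a) := by
        calc (1 : ℝ≥0∞) = a + (1 - a) := hadd.symm
          _ ≤ (1 - a) + (1 - a) := by gcongr
          _ = 2 * (1 - a) := (two_mul _).symm
      calc min a (1 - a) ≤ a * 1 := by rw [mul_one]; exact min_le_left _ _
        _ ≤ a * (2 * (1 - a)) := by gcongr
        _ = _ := by ring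
    · have h2 : 1 ≤ 2 * a := by
        calc (1 : ℝ≥0∞) = a + (1 - a) := hadd.symm
          _ ≤ a + a := by gcongr
          _ = 2 * a := (two_mul _).symm
      calc min a (1 - a) ≤ 1 * (1 - a) := by rw [one_mul]; exact min_le_right _ _
        _ ≤ 2 * a * (1 - a) := by gcongr
        _ = _ := by ring
  calc ENNReal.ofReal (1 / (8 * Real.sqrt C)) * min a (1 - a)
      ≤ ENNReal.ofReal (1 / (8 * Real.sqrt C)) * (2 * (a * (1 - a))) := by gcongr
    _ ≤ ENNReal.ofReal (1 / (8 * Real.sqrt C)) * (2 * (ENNReal.ofReal (4 * Real.sqrt C) * I)) := by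
        gcongr
    _ = (ENNReal.ofReal (1 / (8 * Real.sqrt C)) * ENNReal.ofReal 2 *
          ENNReal.ofReal (4 * Real.sqrt C)) * I := by
        rw [ENNReal.ofReal_ofNat]
        ring
    _ = I := by
        rw [← ENNReal.ofReal_mul (by positivity), ← ENNReal.ofReal_mul (by positivity)]
        have : 1 / (8 * Real.sqrt C) * 2 * (4 * Real.sqrt C) = 1 := by
          field_simp
          norm_num
        rw [this, ENNReal.ofReal_one, one_mul]

end

/-- halfspace form -/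
theorem asm : ∃ c : ℝ, 0 < c ∧ ∀ (κ : Type) [Fintype κ] (D : Set (Eu κ)), IsCompact D →
    Convex ℝ D → (interior D).Nonempty → ∀ C v : ℝ, 0 < C → 0 < v →
    (∀ f : Eu κ → ℝ, ContDiff ℝ 1 f → VV D f ≤ C * EV D fun x => ‖fderiv ℝ f x‖ ^ 2) →
    (∃ θ : Eu κ, ‖θ‖ = 1 ∧ v ≤ VV D (fun x => ⟪θ, x⟫_ℝ)) → ∀ t : ℝ≥0∞,
    (∀ (θ : Eu κ) (b : ℝ), ‖θ‖ = 1 →
      t * min (un D {x | ⟪θ, x⟫_ℝ ≤ b}) (1 - un D {x | ⟪θ, x⟫_ℝ ≤ b}) ≤
      liminf (fun ε : ℝ => (un D (Metric.thickening ε {x | ⟪θ, x⟫_ℝ ≤ b}) -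
        un D {x | ⟪θ, x⟫_ℝ ≤ b}) / ENNReal.ofReal ε) (𝓝[>] 0)) →
    ∀ S : Set (Eu κ), MeasurableSet S →
      ENNReal.ofReal (c * Real.sqrt (v / C)) * t * min (un D S) (1 - un D S) ≤
      liminf (fun ε : ℝ =>
        (un D (Metric.thickening ε S) - un D S) / ENNReal.ofReal ε) (𝓝[>] 0) := by
  obtain ⟨C₀, hC₀, HH⟩ := Pool.Agent.Y211.FF.half
  have hs0 : 0 < Real.sqrt C₀ := Real.sqrt_pos.2 hC₀
  refine ⟨1 / (8 * Real.sqrt C₀), by positivity, ?_⟩
  intro κ _ D hc hco hi C v hC hv0 hP hvar t ht S hS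
  have hv := vpos hi
  have hprob := un_prob hc hv
  have hsC : 0 < Real.sqrt C := Real.sqrt_pos.2 hC
  have hsv : 0 < Real.sqrt v := Real.sqrt_pos.2 hv0
  refine le_trans ?_ (sets D hc hco hi C hC hP S hS)
  obtain ⟨θ, hθ, hvar⟩ := hvar
  obtain ⟨m, hm⟩ := HH κ D hc hco hi (un D) rfl θ t hθ (fun b => ht θ b hθ)
  have hcont : Continuous fun x : Eu κ => (⟪θ, x⟫_ℝ - m) ^ 2 := by fun_prop
  rw [← ofReal_integral_eq_lintegral_ofReal (un_integrable hc hv _ hcont)
    (Eventually.of_forall fun x => sq_nonneg _)] at hm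
  have h3 : v ≤ ∫ x, (⟪θ, x⟫_ℝ - m) ^ 2 ∂(un D) := by
    have h4 : ProbabilityTheory.variance (fun x => ⟪θ, x⟫_ℝ - m) (un D) =
        ProbabilityTheory.variance (fun x => ⟪θ, x⟫_ℝ) (un D) :=
      ProbabilityTheory.variance_sub_const (by fun_prop) m
    rw [var_eq hc hv (fun x => ⟪θ, x⟫_ℝ) (by fun_prop)] at h4
    refine hvar.trans ?_
    rw [← h4]
    exact ProbabilityTheory.variance_le_expectation_sq (by fun_prop)
  have h5 : t ^ 2 * ENNReal.ofReal v ≤ ENNReal.ofReal C₀ :=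
    (mul_le_mul_right (ENNReal.ofReal_le_ofReal h3) _).trans hm
  have ht2 : t ^ 2 ≤ ENNReal.ofReal (C₀ / v) := by
    have e : ENNReal.ofReal (C₀ / v) = ENNReal.ofReal C₀ * ENNReal.ofReal v⁻¹ := by
      rw [← ENNReal.ofReal_mul hC₀.le, div_eq_mul_inv]
    rw [e]
    calc t ^ 2 = t ^ 2 * ENNReal.ofReal v * ENNReal.ofReal v⁻¹ := by
          rw [mul_assoc, ← ENNReal.ofReal_mul hv0.le, mul_inv_cancel₀ hv0.ne', ENNReal.ofReal_one,
            mul_one]
      _ ≤ _ := mul_le_mul_left h5 _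
  have ht3 : t ≤ ENNReal.ofReal (Real.sqrt (C₀ / v)) := by
    have e : ENNReal.ofReal (C₀ / v) = ENNReal.ofReal (Real.sqrt (C₀ / v)) ^ 2 := by
      rw [← ENNReal.ofReal_pow (Real.sqrt_nonneg _), Real.sq_sqrt (by positivity)]
    rw [e] at ht2
    exact (ENNReal.pow_le_pow_left_iff two_ne_zero).1 ht2
  have h6 : ENNReal.ofReal (1 / (8 * Real.sqrt C₀) * Real.sqrt (v / C)) * t ≤
      ENNReal.ofReal (1 / (8 * Real.sqrt C)) := by
    calc _ ≤ ENNReal.ofReal (1 / (8 * Real.sqrt C₀) * Real.sqrt (v / C)) *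
          ENNReal.ofReal (Real.sqrt (C₀ / v)) := mul_le_mul_right ht3 _
      _ = ENNReal.ofReal (1 / (8 * Real.sqrt C)) := by
          rw [← ENNReal.ofReal_mul (by positivity)]
          congr 1
          rw [Real.sqrt_div hv0.le, Real.sqrt_div hC₀.le]
          field_simp
  exact mul_le_mul' h6 le_rfl

end Pool.Agent.L0h31.GT
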