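import Pool.Agent.L0h31.GT.Keu

/-!
# Gelfand-Tsetlin polytopes: the conclusions, given the modules
-/

set_option autoImplicit false

namespace Pool.Agent.L0h31.GT

open MeasureTheory Set Filter Topology
open scoped ENNReal InnerProductSpace
open Pool.Agent.W695.KH (Eu EV VV Sm)

/-- the sum of `(l i - l j)²` over all pairs -/
noncomputable def pairs {n : ℕ} (l : Fin n → ℝ) : ℝ := (∑ i, ∑ j, (l i - l j) ^ 2) / 2

theorem pairs_eq {m : ℕ} (l : Fin (m + 1) → ℝ) : pairs l = (m + 1) * p2 l - p1 l ^ 2 := by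
  unfold pairs p1 p2
  have h1 : ∀ i j, (l i - l j) ^ 2 = l i ^ 2 - 2 * (l i * l j) + l j ^ 2 := fun i j => by ring
  simp only [h1, Finset.sum_add_distrib, Finset.sum_sub_distrib, Finset.sum_const, Finset.card_univ,
    Fintype.card_fin, nsmul_eq_mul, ← Finset.mul_sum, ← Finset.sum_mul]
  push_cast
  ring

theorem card_tri : ∀ m : ℕ, (Fintype.card (Tri m) : ℝ) = m * (m + 1) / 2
  | 0 => by
      have : Fintype.card (Tri 0) = 0 := Fintype.card_eq_zero_iff.2 (inferInstanceAs (IsEmpty Empty))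
      rw [this]; simp
  | (m + 1) => by
      have h1 : Fintype.card (Tri (m + 1)) = Fintype.card (Tri m) + (m + 1) := by
        have := Fintype.card_sum (α := Tri m) (β := Fin (m + 1))
        rw [Fintype.card_fin] at this
        exact this
      rw [h1]
      push_cast
      rw [card_tri m]
      ring

theorem vd_pos {n : ℕ} {l : Fin n → ℝ} (hl : StrictMono l) : 0 < vd l := by
  unfold vd
  rw [Matrix.det_vandermonde]
  refine Finset.prod_pos fun i _ => Finset.prod_pos fun j hj => ?_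
  exact sub_pos.2 (hl (Finset.mem_Ioi.1 hj))

theorem sf_pos (m : ℕ) : (0 : ℝ) < sf m := by
  unfold sf
  exact_mod_cast Finset.prod_pos fun k _ => Nat.factorial_pos k

section

variable {m : ℕ} {l : Fin (m + 1) → ℝ}

theorem vol_eq (h : S_VOL) (hl : StrictMono l) : (volume (GTp m l)).toReal = vd l / sf m := by
  have h1 := (h m l hl.monotone).1
  rw [setIntegral_const, smul_eq_mul, mul_one] at h1
  exact h1

/-- the variance of the sum of all entries -/
theorem VV_sum (h : S_VOL) (hl : StrictMono l) :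
    VV (KE (GTp m l)) (fun x => ∑ t, x t) = 1 / 12 * pairs l := by
  obtain ⟨hv, hG⟩ := tre (GTp m l)
  obtain ⟨-, h1, h2⟩ := h m l hl.monotone
  have hq : 0 < vd l / sf m := div_pos (vd_pos hl) (sf_pos m)
  simp only [VV, EV, hv, vol_eq h hl, hG]
  have e1 : (∫ x in GTp m l, ∑ t, x t) = (m / 2 : ℝ) * p1 l * (vd l / sf m) := h1
  have e2 : (∫ x in GTp m l, (∑ t, x t) ^ 2) =
      ((m / 2 : ℝ) ^ 2 * p1 l ^ 2 + (1 / 12) * ((m + 1) * p2 l - p1 l ^ 2)) * (vd l / sf m) := h2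
  rw [e1, e2, mul_div_assoc, mul_div_assoc, div_self hq.ne', pairs_eq]
  ring

end

theorem pairs_pos {m : ℕ} (hm : 1 ≤ m) {l : Fin (m + 1) → ℝ} (hl : StrictMono l) : 0 < pairs l := by
  unfold pairs
  have h1 : 0 < ∑ i, ∑ j, (l i - l j) ^ 2 := by
    have h0 : (0 : Fin (m + 1)) < Fin.last m := by
      rw [Fin.lt_def]
      simp
      omega
    refine Finset.sum_pos' (fun i _ => Finset.sum_nonneg fun j _ => sq_nonneg _)
      ⟨0, Finset.mem_univ _, ?_⟩
    refine Finset.sum_pos' (fun j _ => sq_nonneg _) ⟨Fin.last m, Finset.mem_univ _, ?_⟩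
    have := hl h0
    have h2 : l 0 - l (Fin.last m) ≠ 0 := by linarith
    positivity
  linarith

/-- a direction of large variance -/
theorem dir (h : S_VOL) {m : ℕ} (hm : 1 ≤ m) {l : Fin (m + 1) → ℝ} (hl : StrictMono l) :
    ∃ θ : Eu (Tri m), ‖θ‖ = 1 ∧
      1 / 12 * (pairs l / (m * (m + 1) / 2)) ≤ VV (KE (GTp m l)) (fun x => ⟪θ, x⟫_ℝ) := by
  set N : ℝ := m * (m + 1) / 2 with hN
  have hm' : (1 : ℝ) ≤ m := by exact_mod_cast hm
  have hN0 : 0 < N := by rw [hN]; positivity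
  have hs : 0 < Real.sqrt N := Real.sqrt_pos.2 hN0
  set θ : Eu (Tri m) := WithLp.toLp 2 (fun _ => (Real.sqrt N)⁻¹) with hθ
  have hn : ‖θ‖ = 1 := by
    have h1 : ‖θ‖ ^ 2 = 1 := by
      rw [EuclideanSpace.real_norm_sq_eq]
      simp only [hθ]
      rw [Finset.sum_const, Finset.card_univ, nsmul_eq_mul, card_tri, ← hN, inv_pow,
        Real.sq_sqrt hN0.le, mul_inv_cancel₀ hN0.ne']
    nlinarith [norm_nonneg θ]
  refine ⟨θ, hn, ?_⟩
  have h1 : (fun x : Eu (Tri m) => ⟪θ, x⟫_ℝ) = fun x => (Real.sqrt N)⁻¹ * ∑ t, x t := by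
    funext x
    rw [PiLp.inner_apply, Finset.mul_sum]
    refine Finset.sum_congr rfl fun t _ => ?_
    simp [hθ, mul_comm]
  have h2 : VV (KE (GTp m l)) (fun x => (Real.sqrt N)⁻¹ * ∑ t, x t) =
      (Real.sqrt N)⁻¹ ^ 2 * VV (KE (GTp m l)) (fun x => ∑ t, x t) := by
    unfold VV EV
    have e1 : (fun x : Eu (Tri m) => ((Real.sqrt N)⁻¹ * ∑ t, x t) ^ 2) =
        fun x => (Real.sqrt N)⁻¹ ^ 2 * (∑ t, x t) ^ 2 := by
      funext x; ring
    rw [e1, integral_const_mul, integral_const_mul]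
    ring
  rw [h1, h2, VV_sum h hl, inv_pow, Real.sq_sqrt hN0.le]
  apply le_of_eq
  field_simp

/-- Poincaré's inequality -/
theorem poig (h : S_SCL) (hg : S_GEO) {m : ℕ} (hm : 1 ≤ m) {l : Fin (m + 1) → ℝ}
    (hl : StrictMono l) (f : Eu (Tri m) → ℝ) (hf : ContDiff ℝ 1 f) :
    VV (KE (GTp m l)) f ≤ (l (Fin.last m) - l 0) ^ 2 / Real.pi ^ 2 *
      EV (KE (GTp m l)) fun x => ‖fderiv ℝ f x‖ ^ 2 := by
  obtain ⟨hc, hco, ⟨R, a, b, hab, he⟩, hi⟩ := hg m l hl.monotone
  have h0 : (0 : Fin (m + 1)) < Fin.last m := by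
    rw [Fin.lt_def]
    simp
    omega
  have hP : Poi (GTp m l) ((l (Fin.last m) - l 0) ^ 2 / Real.pi ^ 2) := by
    rw [he]
    exact h (Tri m) R a b (l 0) (l (Fin.last m)) (hl h0) hab
  refine poie hP ?_ hc.measure_lt_top.ne f hf
  exact (lt_of_lt_of_le (isOpen_interior.measure_pos volume (hi hl))
    (measure_mono interior_subset)).ne'

end Pool.Agent.L0h31.GT
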