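import Mathlib

/-!
# Gelfand-Tsetlin polytopes and order cones cut by boxes: statements of the modules (helper31)

All sets are in `ι → ℝ` with Lebesgue measure; the Euclidean version comes at the end.
-/

set_option autoImplicit false

open MeasureTheory Filter Topology

namespace Pool.Agent.L0h31.GT

/-! ### Poincaré's inequality for order cones intersected with boxes -/

/-- the partial derivative in the direction `a` -/
noncomputable def pd {ι : Type} [Fintype ι] [DecidableEq ι] (f : (ι → ℝ) → ℝ) (a : ι) (x : ι → ℝ) : ℝ :=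
  fderiv ℝ f x (Pi.single a 1)

/-- Poincaré's inequality on `K` with the constant `D` (multiplied by the square of the volume) -/
def Poi {ι : Type} [Fintype ι] [DecidableEq ι] (K : Set (ι → ℝ)) (D : ℝ) : Prop :=
  ∀ f : (ι → ℝ) → ℝ, ContDiff ℝ 1 f →
    (∫ x in K, f x ^ 2) * (volume K).toReal - (∫ x in K, f x) ^ 2 ≤
      D * (volume K).toReal * ∫ x in K, ∑ a, pd f a x ^ 2

/-- order constraints and a box -/
def OB {ι : Type} (R : ι → ι → Prop) (a b : ι → ℝ) : Set (ι → ℝ) :=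
  {x | (∀ i, a i ≤ x i ∧ x i ≤ b i) ∧ ∀ i j, R i j → x i ≤ x j}

/-- the chain of length `N` which approximates the box with the sides `[a i, b i]` -/
def Ch {ι : Type} (a b : ι → ℝ) (N : ℕ) (x : ι → ℝ) : Set (Fin N → ℝ) :=
  {c | (∀ j, 0 ≤ c j ∧ c j ≤ 1) ∧ (∀ j k, j ≤ k → c j ≤ c k) ∧
    ∀ (i : ι) (j : Fin N), (N * b i ≤ (j : ℝ) → x i ≤ c j) ∧ ((j : ℝ) + 1 ≤ N * a i → c j ≤ x i)}

/-- OPK (~80 lines): Poincaré for all order polytopes, any finite index set and any relation. From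
`Pool.Agent.L0h99.SO.poit` (Pool/Agent/L0h99/SO/Poi.lean or Euc.lean, for `Fin n` and 2-CNF formulas:
clause `¬ i ∨ j` is the pair of literals `(i, false), (j, true)`), and an equivalence `ι ≃ Fin n`. -/
def S_OPK : Prop := ∀ (ι : Type) [Fintype ι] [DecidableEq ι] (R : ι → ι → Prop),
  Poi (OB R (fun _ => 0) (fun _ => 1)) (1 / Real.pi ^ 2)

/-- CHN (~150 lines): order statistics. `N! vol (Ch a b N x) = P(for all i: #{U_j < x i} ≤ ⌈N b i⌉, ...)`
for independent uniform `U_1, …, U_N`; law of large numbers by Chebyshev.  The symmetrisation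
`∫_{sorted} φ = (1/N!) ∫_{cube} φ` for symmetric `φ` is in Pool/Agent/R972/OP (used there for the variance
of order polytopes) or by hand. -/
def S_CHN : Prop := ∀ (ι : Type) [Fintype ι] (a b : ι → ℝ), (∀ i, 0 ≤ a i ∧ a i ≤ b i ∧ b i ≤ 1) →
  (∀ (N : ℕ) (x : ι → ℝ), (Nat.factorial N : ℝ) * (volume (Ch a b N x)).toReal ≤ 1) ∧
  (∀ x : ι → ℝ, (∀ i, a i < x i ∧ x i < b i) →
    Tendsto (fun N : ℕ => (Nat.factorial N : ℝ) * (volume (Ch a b N x)).toReal) atTop (𝓝 1)) ∧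
  (∀ x : ι → ℝ, (∀ i, 0 ≤ x i ∧ x i ≤ 1) → (∃ i, x i < a i ∨ b i < x i) →
    Tendsto (fun N : ℕ => (Nat.factorial N : ℝ) * (volume (Ch a b N x)).toReal) atTop (𝓝 0))

/-- FUB (~120 lines): the order polytope of `ι ⊕ Fin N` with the relation `RN` -/
def RN {ι : Type} (R : ι → ι → Prop) (a b : ι → ℝ) (N : ℕ) : ι ⊕ Fin N → ι ⊕ Fin N → Prop
  | Sum.inl i, Sum.inl j => R i j
  | Sum.inl i, Sum.inr j => N * b i ≤ (j : ℝ)
  | Sum.inr j, Sum.inl i => (j : ℝ) + 1 ≤ N * a i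
  | Sum.inr j, Sum.inr k => j ≤ k

def S_FUB : Prop := ∀ (ι : Type) [Fintype ι] [DecidableEq ι] (R : ι → ι → Prop) (a b : ι → ℝ) (N : ℕ)
  (F : (ι → ℝ) → ℝ), Continuous F →
  ∫ x in OB (RN R a b N) (fun _ => 0) (fun _ => 1), F (fun i => x (Sum.inl i)) =
    ∫ x in OB R (fun _ => 0) (fun _ => 1), F x * (volume (Ch a b N x)).toReal

/-- BOX (~200 lines), given OPK, CHN, FUB: apply OPK to `ι ⊕ Fin N`, `f` depending on `ι` only, multiply
by `(N!)²` and let `N → ∞` (dominated convergence; the boundary of the box is a null set). If some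
`b i < a i` the set is empty. -/
def S_BOX : Prop := ∀ (ι : Type) [Fintype ι] [DecidableEq ι] (R : ι → ι → Prop) (a b : ι → ℝ),
  (∀ i, 0 ≤ a i ∧ b i ≤ 1) → Poi (OB R a b) (1 / Real.pi ^ 2)

/-- SCL (~80 lines), given BOX: scaling -/
def S_SCL : Prop := ∀ (ι : Type) [Fintype ι] [DecidableEq ι] (R : ι → ι → Prop) (a b : ι → ℝ) (A B : ℝ),
  A < B → (∀ i, A ≤ a i ∧ b i ≤ B) → Poi (OB R a b) ((B - A) ^ 2 / Real.pi ^ 2)

/-! ### Gelfand-Tsetlin patterns -/

/-- the index set of the rows of length `1, …, m` -/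
def Tri : ℕ → Type
  | 0 => Empty
  | (m + 1) => Tri m ⊕ Fin (m + 1)

instance instFintypeTri : ∀ m : ℕ, Fintype (Tri m)
  | 0 => inferInstanceAs (Fintype Empty)
  | (m + 1) => @instFintypeSum (Tri m) (Fin (m + 1)) (instFintypeTri m) inferInstance

instance instDecidableEqTri : ∀ m : ℕ, DecidableEq (Tri m)
  | 0 => inferInstanceAs (DecidableEq Empty)
  | (m + 1) => @instDecidableEqSum (Tri m) (Fin (m + 1)) (instDecidableEqTri m) inferInstance

/-- the Gelfand-Tsetlin polytope: the triangular arrays with rows of length `m, m - 1, …, 1`, each row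
interlacing the row above it, the first one interlacing `l 0 ≤ l 1 ≤ … ≤ l m` -/
def GTp : (m : ℕ) → (Fin (m + 1) → ℝ) → Set (Tri m → ℝ)
  | 0, _ => Set.univ
  | (m + 1), l => {x | (∀ j : Fin (m + 1), l j.castSucc ≤ x (Sum.inr j) ∧ x (Sum.inr j) ≤ l j.succ) ∧
      (fun t : Tri m => x (Sum.inl t)) ∈ GTp m (fun j => x (Sum.inr j))}

/-- the rows which interlace `l` -/
def IB {n : ℕ} (l : Fin (n + 1) → ℝ) : Set (Fin n → ℝ) := {μ | ∀ j, l j.castSucc ≤ μ j ∧ μ j ≤ l j.succ}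

/-- Vandermonde determinant (nonnegative for monotone `x`) -/
noncomputable def vd {n : ℕ} (x : Fin n → ℝ) : ℝ := (Matrix.vandermonde x).det

/-- power sums -/
def p1 {n : ℕ} (x : Fin n → ℝ) : ℝ := ∑ i, x i
def p2 {n : ℕ} (x : Fin n → ℝ) : ℝ := ∑ i, x i ^ 2

/-- alternants -/
noncomputable def alt {n : ℕ} (e : Fin n → ℕ) (x : Fin n → ℝ) : ℝ :=
  (Matrix.of fun i k => x i ^ e k).det

/-- exponents `0, …, n - 2, n` -/
def E1 (n : ℕ) (k : Fin n) : ℕ := if (k : ℕ) + 1 = n then n else k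
/-- exponents `0, …, n - 3, n - 1, n` -/
def E2 (n : ℕ) (k : Fin n) : ℕ := if n ≤ (k : ℕ) + 2 then k + 1 else k
/-- exponents `0, …, n - 2, n + 1` -/
def E3 (n : ℕ) (k : Fin n) : ℕ := if (k : ℕ) + 1 = n then n + 1 else k

/-- BIAL (~180 lines): Jacobi's bialternant formula in degree one and two. Write
`∏ (X - x_i) = X^n - p1 X^(n-1) + e2 X^(n-2) + (lower)` (induction on `n`), so
`x_i^n = p1 x_i^(n-1) - e2 x_i^(n-2) + ∑_{k < n-2} c_k x_i^k`, and replace the columns. -/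
def S_BIAL : Prop := ∀ (n : ℕ) (x : Fin n → ℝ),
  alt (fun k => (k : ℕ)) x = vd x ∧
  (1 ≤ n → alt (E1 n) x = vd x * p1 x) ∧
  (2 ≤ n → alt (E2 n) x = vd x * ((p1 x ^ 2 - p2 x) / 2)) ∧
  (1 ≤ n → alt (E3 n) x = vd x * ((p1 x ^ 2 + p2 x) / 2))

/-- DINT (~150 lines): Leibniz expansion and Fubini (`integral_fintype_prod_eq_prod` or
`MeasureTheory.integral_fintype_prod_volume_eq_prod`, the box is a product of intervals), then
`Matrix.det_eq_of_forall_row_eq_smul_add_pred` (subtract from each row the previous one). -/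
def S_DINT : Prop := ∀ (n : ℕ) (e : Fin n → ℕ) (l : Fin (n + 1) → ℝ), Monotone l →
  ∫ μ in IB l, alt e μ = (∏ k, 1 / ((e k : ℝ) + 1)) * alt (Fin.cons 0 fun k => e k + 1) l

/-- ROW (~120 lines), given BIAL and DINT; `n ≥ 1` -/
def S_ROW : Prop := ∀ (n : ℕ) (l : Fin (n + 2) → ℝ), Monotone l →
  (∫ μ in IB l, vd μ) = vd l / (n + 1).factorial ∧
  (∫ μ in IB l, vd μ * p1 μ) = ((n + 1 : ℝ) / (n + 2)) * p1 l * (vd l / (n + 1).factorial) ∧
  (∫ μ in IB l, vd μ * ((p1 μ ^ 2 - p2 μ) / 2)) =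
    ((n : ℝ) / (n + 2)) * ((p1 l ^ 2 - p2 l) / 2) * (vd l / (n + 1).factorial) ∧
  (∫ μ in IB l, vd μ * ((p1 μ ^ 2 + p2 μ) / 2)) =
    ((n + 1 : ℝ) / (n + 3)) * ((p1 l ^ 2 + p2 l) / 2) * (vd l / (n + 1).factorial)

/-- REC (~120 lines): Fubini for the top row (`volume_measurePreserving_sumPiEquivProdPi`); also the
elements of `IB l` are monotone -/
def S_REC : Prop := ∀ (m : ℕ) (l : Fin (m + 2) → ℝ) (F : (Tri (m + 1) → ℝ) → ℝ), Monotone l →
  Continuous F →
  (∫ x in GTp (m + 1) l, F x) = ∫ μ in IB l, ∫ y in GTp m μ, F (Sum.elim y μ)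

/-- `∏_{k ≤ m} k!` -/
def sf (m : ℕ) : ℕ := ∏ k ∈ Finset.range (m + 1), k.factorial

/-- the sum of all entries -/
def St {m : ℕ} (x : Tri m → ℝ) : ℝ := ∑ t, x t

/-- VOL (~150 lines), given ROW and REC: volume, mean and second moment of the sum of all entries, by
induction on `m`; `S = S(y) + p1 μ`, `p1² = e + h`, `p2 = h - e` with `e = (p1² - p2)/2`,
`h = (p1² + p2)/2`. -/
def S_VOL : Prop := ∀ (m : ℕ) (l : Fin (m + 1) → ℝ), Monotone l →
  (∫ _x in GTp m l, (1 : ℝ)) = vd l / sf m ∧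
  (∫ x in GTp m l, St x) = (m / 2 : ℝ) * p1 l * (vd l / sf m) ∧
  (∫ x in GTp m l, St x ^ 2) =
    ((m / 2 : ℝ) ^ 2 * p1 l ^ 2 + (1 / 12) * ((m + 1) * p2 l - p1 l ^ 2)) * (vd l / sf m)

/-- GEO (~150 lines): the polytope is compact and convex, it is given by order relations and a box
inside `[l 0, l m]` (by induction; the lower rows have the trivial box), and it has interior points
(or positive volume by VOL: `vd l > 0`) if `l` is strictly monotone -/
def S_GEO : Prop := ∀ (m : ℕ) (l : Fin (m + 1) → ℝ), Monotone l →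
  IsCompact (GTp m l) ∧ Convex ℝ (GTp m l) ∧
  (∃ (R : Tri m → Tri m → Prop) (a b : Tri m → ℝ), (∀ t, l 0 ≤ a t ∧ b t ≤ l (Fin.last m)) ∧
    GTp m l = OB R a b) ∧
  (StrictMono l → (interior (GTp m l)).Nonempty)

end Pool.Agent.L0h31.GT
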