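import Pool.Agent.L0h31.GT.Asm
import Pool.Agent.L0h31.GT.Stm

/-!
# Transfer from `κ → ℝ` to Euclidean space
-/

set_option autoImplicit false

namespace Pool.Agent.L0h31.GT

open MeasureTheory Set Filter Topology
open scoped ENNReal InnerProductSpace
open Pool.Agent.W695.KH (Eu EV VV Sm)

variable {κ : Type} [Fintype κ]

/-- the set `K` in Euclidean space -/
def KE (K : Set (κ → ℝ)) : Set (Eu κ) := {x | (fun i => x i) ∈ K}

theorem pre_eq (K : Set (κ → ℝ)) :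
    (fun x : κ → ℝ => (WithLp.toLp 2 x : Eu κ)) ⁻¹' (KE K) = K := by
  ext x
  simp [KE]

theorem tre (K : Set (κ → ℝ)) : volume (KE K) = volume K ∧
    ∀ G : Eu κ → ℝ, ∫ x in KE K, G x = ∫ x in K, G (WithLp.toLp 2 x) := by
  have hmp := PiLp.volume_preserving_toLp κ
  have hme : MeasurableEmbedding (fun x : κ → ℝ => (WithLp.toLp 2 x : Eu κ)) :=
    (MeasurableEquiv.toLp 2 (κ → ℝ)).measurableEmbedding
  have h0 := pre_eq K
  refine ⟨?_, fun G => ?_⟩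
  · conv_rhs => rw [← h0]
    exact (hmp.measure_preimage_emb hme (KE K)).symm
  · conv_rhs => rw [← h0]
    exact (hmp.setIntegral_preimage_emb hme G (KE K)).symm

/-- the linear equivalence -/
noncomputable def L (κ : Type) [Fintype κ] : (κ → ℝ) ≃L[ℝ] Eu κ :=
  (PiLp.continuousLinearEquiv 2 ℝ (fun _ : κ => ℝ)).symm

theorem L_apply (x : κ → ℝ) : L κ x = WithLp.toLp 2 x := rfl

theorem KE_eq (K : Set (κ → ℝ)) : KE K = L κ '' K := by
  ext x
  constructor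
  · intro hx
    exact ⟨fun i => x i, hx, rfl⟩
  · rintro ⟨y, hy, rfl⟩
    exact hy

theorem KE_compact {K : Set (κ → ℝ)} (h : IsCompact K) : IsCompact (KE K) := by
  rw [KE_eq]
  exact h.image (L κ).continuous

theorem KE_convex {K : Set (κ → ℝ)} (h : Convex ℝ K) : Convex ℝ (KE K) := by
  rw [KE_eq]
  exact h.linear_image ((L κ).toLinearEquiv : (κ → ℝ) →ₗ[ℝ] Eu κ)

theorem KE_interior {K : Set (κ → ℝ)} (h : (interior K).Nonempty) : (interior (KE K)).Nonempty := by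
  rw [KE_eq]
  have h1 := (L κ).toHomeomorph.image_interior K
  have h2 : interior ((L κ) '' K) = (L κ) '' interior K := h1.symm
  rw [h2]
  exact h.image _

variable [DecidableEq κ]

theorem norm_sq_functional (φ : Eu κ →L[ℝ] ℝ) :
    ‖φ‖ ^ 2 = ∑ a, φ (EuclideanSpace.single a 1) ^ 2 := by
  set y := (InnerProductSpace.toDual ℝ (Eu κ)).symm φ with hy
  have h1 : ∀ x, φ x = ⟪y, x⟫_ℝ := fun x => by
    rw [hy, InnerProductSpace.toDual_symm_apply]
  have h2 : ‖φ‖ = ‖y‖ := by rw [hy, LinearIsometryEquiv.norm_map]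
  rw [h2, EuclideanSpace.real_norm_sq_eq]
  refine Finset.sum_congr rfl fun a _ => ?_
  rw [h1, EuclideanSpace.inner_single_right]
  simp

theorem sum_pd (f : Eu κ → ℝ) (x : κ → ℝ) :
    ∑ a, pd (f ∘ L κ) a x ^ 2 = ‖fderiv ℝ f (WithLp.toLp 2 x)‖ ^ 2 := by
  rw [norm_sq_functional]
  refine Finset.sum_congr rfl fun a _ => ?_
  rw [pd, ContinuousLinearEquiv.comp_right_fderiv]
  rfl

theorem poie {K : Set (κ → ℝ)} {D : ℝ} (h : Poi K D) (hv0 : volume K ≠ 0) (hvt : volume K ≠ ⊤)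
    (f : Eu κ → ℝ) (hf : ContDiff ℝ 1 f) :
    VV (KE K) f ≤ D * EV (KE K) fun x => ‖fderiv ℝ f x‖ ^ 2 := by
  obtain ⟨hv, hG⟩ := tre K
  have hF : ContDiff ℝ 1 (f ∘ L κ) := hf.comp (L κ).contDiff
  have h3 := h (f ∘ L κ) hF
  have e1 : ∫ x in KE K, f x = ∫ x in K, (f ∘ L κ) x := hG f
  have e2 : ∫ x in KE K, f x ^ 2 = ∫ x in K, (f ∘ L κ) x ^ 2 := hG fun x => f x ^ 2
  have e3 : ∫ x in KE K, ‖fderiv ℝ f x‖ ^ 2 = ∫ x in K, ∑ a, pd (f ∘ L κ) a x ^ 2 := by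
    rw [hG fun x => ‖fderiv ℝ f x‖ ^ 2]
    simp only [sum_pd]
  rw [← e1, ← e2, ← e3] at h3
  simp only [VV, EV, hv]
  set v : ℝ := (volume K).toReal with hvdef
  have h0 : 0 < v := ENNReal.toReal_pos hv0 hvt
  have h4 : (∫ x in KE K, f x ^ 2) / v - ((∫ x in KE K, f x) / v) ^ 2 =
      ((∫ x in KE K, f x ^ 2) * v - (∫ x in KE K, f x) ^ 2) / v ^ 2 := by
    field_simp
  have h5 : D * ((∫ x in KE K, ‖fderiv ℝ f x‖ ^ 2) / v) =
      (D * v * ∫ x in KE K, ‖fderiv ℝ f x‖ ^ 2) / v ^ 2 := by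
    field_simp
  rw [h4, h5]
  exact div_le_div_of_nonneg_right h3 (by positivity)

end Pool.Agent.L0h31.GT
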